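import Pool.Agent.Helper68.AL.PolySolve
import Pool.Agent.Helper36.Alg.Graph

/-!
# GA-15: the graph algorithms are computable in polynomial time
-/

set_option autoImplicit false

namespace Pool.Agent.Helper36.Alg

open Finset Pool.Agent.Helper36.PT

variable {α : Type} [Enc α]

theorem pt_cardN {n : α → ℕ} {χ : α → ℕ → Prop} (hn : PolyTime n)
    (hχ : PolyTime (fun q : α × ℕ => χ q.1 q.2)) : PolyTime (fun a => cardN (n a) (χ a)) := by
  have hχ' := @PolyTime.unc1 _ _ _ _ _ _ _ hχ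
  unfold cardN
  fun_prop

@[fun_prop]
theorem polyTime_np {N : α → ℕ} (hN : PolyTime N) : PolyTime (fun a => np (N a)) := by
  unfold np
  fun_prop

@[fun_prop]
theorem polyTime_mcode {L : α → List ℕ} {j l : α → ℕ} (hL : PolyTime L) (hj : PolyTime j)
    (hl : PolyTime l) : PolyTime (fun a => mcode (L a) (j a) (l a)) := by
  unfold mcode
  fun_prop

@[fun_prop]
theorem polyTime_mA {i u : α → ℕ} (hi : PolyTime i) (hu : PolyTime u) :
    PolyTime (fun a => mA (i a) (u a)) := by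
  unfold mA
  fun_prop

@[fun_prop]
theorem polyTime_mB {n : α → ℕ} {L : α → List ℕ} {j i u : α → ℕ} (hn : PolyTime n)
    (hL : PolyTime L) (hj : PolyTime j) (hi : PolyTime i) (hu : PolyTime u) :
    PolyTime (fun a => mB (n a) (L a) (j a) (i a) (u a)) := by
  unfold mB
  fun_prop

@[fun_prop]
theorem pt_sparseN {n : α → ℕ} {L : α → List ℕ} (hn : PolyTime n) (hL : PolyTime L) :
    PolyTime (fun a => sparseN (n a) (L a)) := by
  unfold sparseN
  refine PolyTime.pAllLt (by fun_prop) ?_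
  refine PolyTime.pEq (polyTime_solve (by fun_prop) (by fun_prop) (by fun_prop) ?_ ?_)
    (by fun_prop)
  · fun_prop
  · fun_prop

theorem pt_rkL {n : α → ℕ} {R : α → ℕ → ℕ → Prop} (hn : PolyTime n)
    (hR : PolyTime (fun q : (α × ℕ) × ℕ => R q.1.1 q.1.2 q.2)) :
    PolyTime (fun a => rkL (n a) (R a)) := by
  have hR' := @PolyTime.unc2 _ _ _ _ _ _ _ _ _ hR
  classical
  unfold rkL
  refine PolyTime.recN (by fun_prop) (by fun_prop) ?_ ?_
  · fun_prop
  refine ⟨fun a => (n a * n a) * (2 * (n a * n a) + 1), ?_, ?_⟩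
  · have h2 := bdd_nat hn
    exact (h2.mul h2).mul (((Bdd.const 2).mul (h2.mul h2)).add (Bdd.const 1))
  · intro a i hi
    have key : ∀ i, i ≤ n a * n a → (recN ([] : List ℕ) (fun k L =>
        if k / n a < k % n a ∧ R a (k / n a) (k % n a) ∧ sparseN (n a) (k :: L) then k :: L
        else L) i).length ≤ i ∧ ∀ t ∈ (recN ([] : List ℕ) (fun k L =>
        if k / n a < k % n a ∧ R a (k / n a) (k % n a) ∧ sparseN (n a) (k :: L) then k :: L
        else L) i), t ≤ n a * n a := by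
      intro i
      induction i with
      | zero => intro _; simp [recN]
      | succ i ih =>
        intro hi'
        obtain ⟨h1, h2⟩ := ih (by omega)
        rw [recN]
        split_ifs with hc
        · refine ⟨by rw [List.length_cons]; omega, ?_⟩
          intro t ht
          rcases List.mem_cons.1 ht with rfl | ht
          · omega
          · exact h2 t ht
        · exact ⟨by omega, h2⟩
    obtain ⟨h1, h2⟩ := key i hi
    have h4 := esz_list_le (B := n a * n a) (fun t ht => by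
      rw [esz_nat]
      exact h2 t ht)
    exact h4.trans (Nat.mul_le_mul_right _ (h1.trans hi))

theorem pt_rkN {n : α → ℕ} {R : α → ℕ → ℕ → Prop} (hn : PolyTime n)
    (hR : PolyTime (fun q : (α × ℕ) × ℕ => R q.1.1 q.1.2 q.2)) :
    PolyTime (fun a => rkN (n a) (R a)) := by
  have hR' := @PolyTime.unc2 _ _ _ _ _ _ _ _ _ hR
  have h := pt_rkL hn hR
  unfold rkN
  fun_prop

theorem pt_up {R : α → ℕ → ℕ → Prop} {u v : α → ℕ}
    (hR : PolyTime (fun q : (α × ℕ) × ℕ => R q.1.1 q.1.2 q.2)) (hu : PolyTime u)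
    (hv : PolyTime v) : PolyTime (fun a => up (R a) (u a) (v a)) := by
  have hR' := @PolyTime.unc2 _ _ _ _ _ _ _ _ _ hR
  unfold up
  fun_prop

theorem esz_indList {n : ℕ} (f : ℕ → Prop) : esz ((List.range n).map (fun w => ind (f w))) ≤
    n * 3 := by
  have h4 := esz_list_le (l := (List.range n).map (fun w => ind (f w))) (B := 1) (fun t ht => by
    rw [esz_nat]
    simp only [List.mem_map] at ht
    obtain ⟨w, -, rfl⟩ := ht
    unfold ind
    split_ifs <;> simp)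
  simpa using h4

theorem pt_reachN {n : α → ℕ} {R : α → ℕ → ℕ → Prop} {χ : α → ℕ → Prop} {u : α → ℕ}
    (hn : PolyTime n) (hR : PolyTime (fun q : (α × ℕ) × ℕ => R q.1.1 q.1.2 q.2))
    (hχ : PolyTime (fun q : α × ℕ => χ q.1 q.2)) (hu : PolyTime u) :
    PolyTime (fun a => reachN (n a) (R a) (χ a) (u a)) := by
  have hR' := @PolyTime.unc2 _ _ _ _ _ _ _ _ _ hR
  have hχ' := @PolyTime.unc1 _ _ _ _ _ _ _ hχ
  unfold reachN up
  refine PolyTime.recN (by fun_prop) (by fun_prop) ?_ ?_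
  · fun_prop
  refine ⟨fun a => n a * 3, (bdd_nat hn).mul (Bdd.const 3), ?_⟩
  intro a i hi
  cases i with
  | zero => exact esz_indList _
  | succ i => exact esz_indList _

theorem pt_reachP {n : α → ℕ} {R : α → ℕ → ℕ → Prop} {χ : α → ℕ → Prop} {u v : α → ℕ}
    (hn : PolyTime n) (hR : PolyTime (fun q : (α × ℕ) × ℕ => R q.1.1 q.1.2 q.2))
    (hχ : PolyTime (fun q : α × ℕ => χ q.1 q.2)) (hu : PolyTime u) (hv : PolyTime v) :
    PolyTime (fun a => reachP (n a) (R a) (χ a) (u a) (v a)) := by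
  have hR' := @PolyTime.unc2 _ _ _ _ _ _ _ _ _ hR
  have hχ' := @PolyTime.unc1 _ _ _ _ _ _ _ hχ
  have h := pt_reachN hn hR hχ hu
  unfold reachP
  fun_prop

theorem pt_connN {n : α → ℕ} {R : α → ℕ → ℕ → Prop} {χ : α → ℕ → Prop}
    (hn : PolyTime n) (hR : PolyTime (fun q : (α × ℕ) × ℕ => R q.1.1 q.1.2 q.2))
    (hχ : PolyTime (fun q : α × ℕ => χ q.1 q.2)) :
    PolyTime (fun a => connN (n a) (R a) (χ a)) := by
  have hR' := @PolyTime.unc2 _ _ _ _ _ _ _ _ _ hR
  have hχ' := @PolyTime.unc1 _ _ _ _ _ _ _ hχ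
  have h : ∀ {γ : Type} [Enc γ] {e : γ → α} {i k : γ → ℕ}, PolyTime e → PolyTime i →
      PolyTime k → PolyTime (fun c => reachP (n (e c)) (R (e c)) (χ (e c)) (i c) (k c)) := by
    intro γ _ e i k he hi hk
    refine pt_reachP ?_ ?_ ?_ hi hk
    · fun_prop
    · fun_prop
    · fun_prop
  unfold connN
  fun_prop

theorem pt_threeN {n : α → ℕ} {R : α → ℕ → ℕ → Prop} {χ : α → ℕ → Prop}
    (hn : PolyTime n) (hR : PolyTime (fun q : (α × ℕ) × ℕ => R q.1.1 q.1.2 q.2))
    (hχ : PolyTime (fun q : α × ℕ => χ q.1 q.2)) :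
    PolyTime (fun a => threeN (n a) (R a) (χ a)) := by
  have hR' := @PolyTime.unc2 _ _ _ _ _ _ _ _ _ hR
  have hχ' := @PolyTime.unc1 _ _ _ _ _ _ _ hχ
  have h1 := pt_cardN hn hχ
  have h2 := pt_connN hn hR hχ
  have h3 : ∀ {γ : Type} [Enc γ] {e : γ → α} {i k : γ → ℕ}, PolyTime e → PolyTime i →
      PolyTime k → PolyTime (fun c => connN (n (e c)) (R (e c))
        (fun v => χ (e c) v ∧ v ≠ i c ∧ v ≠ k c)) := by
    intro γ _ e i k he hi hk
    refine pt_connN ?_ ?_ ?_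
    · fun_prop
    · fun_prop
    · fun_prop
  unfold threeN
  fun_prop

theorem pt_rrN {n : α → ℕ} {R : α → ℕ → ℕ → Prop} {χ : α → ℕ → Prop}
    (hn : PolyTime n) (hR : PolyTime (fun q : (α × ℕ) × ℕ => R q.1.1 q.1.2 q.2))
    (hχ : PolyTime (fun q : α × ℕ => χ q.1 q.2)) :
    PolyTime (fun a => rrN (n a) (R a) (χ a)) := by
  have hR' := @PolyTime.unc2 _ _ _ _ _ _ _ _ _ hR
  have hχ' := @PolyTime.unc1 _ _ _ _ _ _ _ hχ
  have h1 := pt_cardN hn hχ
  have h2 : PolyTime (fun a => rkN (n a) (fun x y => R a x y ∧ χ a x ∧ χ a y)) := by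
    refine pt_rkN hn ?_
    fun_prop
  have h3 : ∀ {γ : Type} [Enc γ] {e : γ → α} {i k : γ → ℕ}, PolyTime e → PolyTime i →
      PolyTime k → PolyTime (fun c => rkN (n (e c)) (fun x y => (R (e c) x y ∧ χ (e c) x ∧
        χ (e c) y) ∧ ¬ (x = i c ∧ y = k c))) := by
    intro γ _ e i k he hi hk
    refine pt_rkN ?_ ?_
    · fun_prop
    · fun_prop
  have h4 : ∀ {γ : Type} [Enc γ] {e : γ → α}, PolyTime e →
      PolyTime (fun c => cardN (n (e c)) (χ (e c))) := fun he => h1.comp he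
  unfold rrN
  fun_prop

theorem pt_grN {n : α → ℕ} {R : α → ℕ → ℕ → Prop} {χ : α → ℕ → Prop}
    (hn : PolyTime n) (hR : PolyTime (fun q : (α × ℕ) × ℕ => R q.1.1 q.1.2 q.2))
    (hχ : PolyTime (fun q : α × ℕ => χ q.1 q.2)) :
    PolyTime (fun a => grN (n a) (R a) (χ a)) :=
  (pt_threeN hn hR hχ).pAnd (pt_rrN hn hR hχ)

/-! ### Coloops, core, blocks -/

theorem pt_coloopN {n : α → ℕ} {R : α → ℕ → ℕ → Prop} {u v : α → ℕ}
    (hn : PolyTime n) (hR : PolyTime (fun q : (α × ℕ) × ℕ => R q.1.1 q.1.2 q.2))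
    (hu : PolyTime u) (hv : PolyTime v) :
    PolyTime (fun a => coloopN (n a) (R a) (u a) (v a)) := by
  have hR' := @PolyTime.unc2 _ _ _ _ _ _ _ _ _ hR
  have h2 := pt_rkN hn hR
  have h3 : PolyTime (fun a => rkN (n a) (fun x y => R a x y ∧ ¬ (x = u a ∧ y = v a))) := by
    refine pt_rkN hn ?_
    fun_prop
  unfold coloopN
  fun_prop

theorem pt_coreN {n : α → ℕ} {R : α → ℕ → ℕ → Prop} {u v : α → ℕ}
    (hn : PolyTime n) (hR : PolyTime (fun q : (α × ℕ) × ℕ => R q.1.1 q.1.2 q.2))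
    (hu : PolyTime u) (hv : PolyTime v) :
    PolyTime (fun a => coreN (n a) (R a) (u a) (v a)) := by
  have hR' := @PolyTime.unc2 _ _ _ _ _ _ _ _ _ hR
  have h := pt_coloopN hn hR hu hv
  unfold coreN
  fun_prop

theorem pt_sameN {n : α → ℕ} {R : α → ℕ → ℕ → Prop} {u v : α → ℕ}
    (hn : PolyTime n) (hR : PolyTime (fun q : (α × ℕ) × ℕ => R q.1.1 q.1.2 q.2))
    (hu : PolyTime u) (hv : PolyTime v) :
    PolyTime (fun a => sameN (n a) (R a) (u a) (v a)) := by
  have hR' := @PolyTime.unc2 _ _ _ _ _ _ _ _ _ hR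
  have h : ∀ {γ : Type} [Enc γ] {e : γ → α} {i k : γ → ℕ}, PolyTime e → PolyTime i →
      PolyTime k → PolyTime (fun c => coreN (n (e c)) (R (e c)) (i c) (k c)) := by
    intro γ _ e i k he hi hk
    refine pt_coreN ?_ ?_ hi hk
    · fun_prop
    · fun_prop
  have h2 : PolyTime (fun a => rkN (n a) (coreN (n a) (R a))) := by
    refine pt_rkN hn ?_
    fun_prop
  have h3 : PolyTime (fun a => rkN (n a) (fun x y => coreN (n a) (R a) x y ∨
      (x = Min.min (u a) (v a) ∧ y = Max.max (u a) (v a)))) := by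
    refine pt_rkN hn ?_
    fun_prop
  unfold sameN
  fun_prop

theorem pt_blkN {n : α → ℕ} {R : α → ℕ → ℕ → Prop} {u v w : α → ℕ}
    (hn : PolyTime n) (hR : PolyTime (fun q : (α × ℕ) × ℕ => R q.1.1 q.1.2 q.2))
    (hu : PolyTime u) (hv : PolyTime v) (hw : PolyTime w) :
    PolyTime (fun a => blkN (n a) (R a) (u a) (v a) (w a)) := by
  have hR' := @PolyTime.unc2 _ _ _ _ _ _ _ _ _ hR
  have h1 := pt_sameN hn hR hu hw
  have h2 := pt_sameN hn hR hv hw
  unfold blkN
  fun_prop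

theorem pt_isBlk {n : α → ℕ} {R : α → ℕ → ℕ → Prop} {k : α → ℕ}
    (hn : PolyTime n) (hR : PolyTime (fun q : (α × ℕ) × ℕ => R q.1.1 q.1.2 q.2))
    (hk : PolyTime k) :
    PolyTime (fun a => isBlk (n a) (R a) (k a)) := by
  have hR' := @PolyTime.unc2 _ _ _ _ _ _ _ _ _ hR
  have h1 : PolyTime (fun a => sameN (n a) (R a) (k a / n a) (k a % n a)) :=
    pt_sameN hn hR (by fun_prop) (by fun_prop)
  have h2 : ∀ {γ : Type} [Enc γ] {e : γ → α} {i k l : γ → ℕ}, PolyTime e → PolyTime i →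
      PolyTime k → PolyTime l → PolyTime (fun c => blkN (n (e c)) (R (e c)) (i c) (k c) (l c)) := by
    intro γ _ e i k l he hi hk hl
    refine pt_blkN ?_ ?_ hi hk hl
    · fun_prop
    · fun_prop
  unfold isBlk
  fun_prop

theorem pt_bcard {n : α → ℕ} {R : α → ℕ → ℕ → Prop} {k : α → ℕ}
    (hn : PolyTime n) (hR : PolyTime (fun q : (α × ℕ) × ℕ => R q.1.1 q.1.2 q.2))
    (hk : PolyTime k) :
    PolyTime (fun a => bcard (n a) (R a) (k a)) := by
  have hR' := @PolyTime.unc2 _ _ _ _ _ _ _ _ _ hR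
  unfold bcard
  refine pt_cardN hn ?_
  refine pt_blkN ?_ ?_ ?_ ?_ ?_
  all_goals fun_prop

theorem pt_At0N {n : α → ℕ} {R : α → ℕ → ℕ → Prop} {v g : α → ℕ}
    (hn : PolyTime n) (hR : PolyTime (fun q : (α × ℕ) × ℕ => R q.1.1 q.1.2 q.2))
    (hv : PolyTime v) (hg : PolyTime g) :
    PolyTime (fun a => At0N (n a) (R a) (v a) (g a)) := by
  have hR' := @PolyTime.unc2 _ _ _ _ _ _ _ _ _ hR
  have h1 : PolyTime (fun a => coloopN (n a) (R a) (g a / n a) (g a % n a)) :=
    pt_coloopN hn hR (by fun_prop) (by fun_prop)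
  have h2 : PolyTime (fun a => isBlk (n a) (R a) (g a - n a ^ 2)) :=
    pt_isBlk hn hR (by fun_prop)
  have h3 : PolyTime (fun a => blkN (n a) (R a) ((g a - n a ^ 2) / n a)
      ((g a - n a ^ 2) % n a) (v a)) :=
    pt_blkN hn hR (by fun_prop) (by fun_prop) hv
  unfold At0N
  fun_prop

@[fun_prop]
theorem pt_NG {n : α → ℕ} (hn : PolyTime n) : PolyTime (fun a => NG (n a)) := by
  unfold NG
  fun_prop

@[fun_prop]
theorem pt_ND {n : α → ℕ} (hn : PolyTime n) : PolyTime (fun a => ND (n a)) := by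
  unfold ND
  fun_prop

theorem pt_AtN {n : α → ℕ} {R : α → ℕ → ℕ → Prop} {v g : α → ℕ}
    (hn : PolyTime n) (hR : PolyTime (fun q : (α × ℕ) × ℕ => R q.1.1 q.1.2 q.2))
    (hv : PolyTime v) (hg : PolyTime g) :
    PolyTime (fun a => AtN (n a) (R a) (v a) (g a)) := by
  have hR' := @PolyTime.unc2 _ _ _ _ _ _ _ _ _ hR
  have h1 : PolyTime (fun a => At0N (n a) (R a) (v a) (g a / (2 * n a ^ 2))) :=
    pt_At0N hn hR hv (by fun_prop)
  have h2 : PolyTime (fun a => At0N (n a) (R a) (v a) (g a % (2 * n a ^ 2))) :=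
    pt_At0N hn hR hv (by fun_prop)
  have h3 : PolyTime (fun a => isBlk (n a) (R a) ((g a - 4 * n a ^ 4) / n a)) :=
    pt_isBlk hn hR (by fun_prop)
  have h4 : PolyTime (fun a => blkN (n a) (R a) ((g a - 4 * n a ^ 4) / n a / n a)
      ((g a - 4 * n a ^ 4) / n a % n a) (v a)) :=
    pt_blkN hn hR (by fun_prop) (by fun_prop) hv
  have h5 : PolyTime (fun a => bcard (n a) (R a) ((g a - 4 * n a ^ 4) / n a)) :=
    pt_bcard hn hR (by fun_prop)
  unfold AtN
  fun_prop

theorem pt_lineN {n : α → ℕ} {R : α → ℕ → ℕ → Prop} {U : α → ℕ → Prop} {l : α → ℕ}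
    (hn : PolyTime n) (hR : PolyTime (fun q : (α × ℕ) × ℕ => R q.1.1 q.1.2 q.2))
    (hU : PolyTime (fun q : α × ℕ => U q.1 q.2)) (hl : PolyTime l) :
    PolyTime (fun a => lineN (n a) (R a) (U a) (l a)) := by
  have hR' := @PolyTime.unc2 _ _ _ _ _ _ _ _ _ hR
  have hU' := @PolyTime.unc1 _ _ _ _ _ _ _ hU
  have h1 : PolyTime (fun a => AtN (n a) (R a) (l a / NG (n a)) (l a % NG (n a))) :=
    pt_AtN hn hR (by fun_prop) (by fun_prop)
  unfold lineN
  fun_prop

theorem pt_linesN {n : α → ℕ} {R : α → ℕ → ℕ → Prop} {U : α → ℕ → Prop}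
    (hn : PolyTime n) (hR : PolyTime (fun q : (α × ℕ) × ℕ => R q.1.1 q.1.2 q.2))
    (hU : PolyTime (fun q : α × ℕ => U q.1 q.2)) :
    PolyTime (fun a => linesN (n a) (R a) (U a)) := by
  have hR' := @PolyTime.unc2 _ _ _ _ _ _ _ _ _ hR
  have hU' := @PolyTime.unc1 _ _ _ _ _ _ _ hU
  have h : ∀ {γ : Type} [Enc γ] {e : γ → α} {l : γ → ℕ}, PolyTime e → PolyTime l →
      PolyTime (fun c => lineN (n (e c)) (R (e c)) (U (e c)) (l c)) := by
    intro γ _ e l he hl
    refine pt_lineN ?_ ?_ ?_ hl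
    · fun_prop
    · fun_prop
    · fun_prop
  unfold linesN
  fun_prop

@[fun_prop]
theorem pt_gvN {p n v g u : α → ℕ} (hp : PolyTime p) (hn : PolyTime n) (hv : PolyTime v)
    (hg : PolyTime g) (hu : PolyTime u) :
    PolyTime (fun a => gvN (p a) (n a) (v a) (g a) (u a)) := by
  unfold gvN
  fun_prop

@[fun_prop]
theorem pt_vA {p n l u : α → ℕ} (hp : PolyTime p) (hn : PolyTime n) (hl : PolyTime l)
    (hu : PolyTime u) : PolyTime (fun a => vA (p a) (n a) (l a) (u a)) := by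
  unfold vA
  fun_prop

@[fun_prop]
theorem pt_vB {n l u : α → ℕ} (hn : PolyTime n) (hl : PolyTime l)
    (hu : PolyTime u) : PolyTime (fun a => vB (n a) (l a) (u a)) := by
  unfold vB
  fun_prop

@[fun_prop]
theorem pt_prN {n m : α → ℕ} (hn : PolyTime n) (hm : PolyTime m) :
    PolyTime (fun a => prN (n a) (m a)) := by
  unfold prN
  fun_prop

theorem pt_parN {n : α → ℕ} {R : α → ℕ → ℕ → Prop} {U : α → ℕ → Prop}
    (hn : PolyTime n) (hR : PolyTime (fun q : (α × ℕ) × ℕ => R q.1.1 q.1.2 q.2))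
    (hU : PolyTime (fun q : α × ℕ => U q.1 q.2)) :
    PolyTime (fun a => parN (n a) (R a) (U a)) := by
  have h := pt_linesN hn hR hU
  have h' : ∀ {γ : Type} [Enc γ] {e : γ → α}, PolyTime e →
      PolyTime (fun c => linesN (n (e c)) (R (e c)) (U (e c))) := fun he => h.comp he
  unfold parN
  refine polyTime_solve (by fun_prop) (by fun_prop) (by fun_prop) ?_ ?_
  · fun_prop
  · fun_prop

/-! ### Ends and the greedy set -/

theorem pt_compN {n : α → ℕ} {R : α → ℕ → ℕ → Prop} {x y w z : α → ℕ}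
    (hn : PolyTime n) (hR : PolyTime (fun q : (α × ℕ) × ℕ => R q.1.1 q.1.2 q.2))
    (hx : PolyTime x) (hy : PolyTime y) (hw : PolyTime w) (hz : PolyTime z) :
    PolyTime (fun a => compN (n a) (R a) (x a) (y a) (w a) (z a)) := by
  have hR' := @PolyTime.unc2 _ _ _ _ _ _ _ _ _ hR
  unfold compN
  refine pt_reachP hn hR ?_ hw hz
  fun_prop

theorem pt_endN {n : α → ℕ} {R : α → ℕ → ℕ → Prop} {x y w : α → ℕ}
    (hn : PolyTime n) (hR : PolyTime (fun q : (α × ℕ) × ℕ => R q.1.1 q.1.2 q.2))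
    (hx : PolyTime x) (hy : PolyTime y) (hw : PolyTime w) :
    PolyTime (fun a => endN (n a) (R a) (x a) (y a) (w a)) := by
  have hR' := @PolyTime.unc2 _ _ _ _ _ _ _ _ _ hR
  have h : ∀ {γ : Type} [Enc γ] {e : γ → α} {i j k l : γ → ℕ}, PolyTime e → PolyTime i →
      PolyTime j → PolyTime k → PolyTime l →
      PolyTime (fun c => compN (n (e c)) (R (e c)) (i c) (j c) (k c) (l c)) := by
    intro γ _ e i j k l he hi hj hk hl
    refine pt_compN ?_ ?_ hi hj hk hl
    · fun_prop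
    · fun_prop
  have h2 : ∀ {γ : Type} [Enc γ] {e : γ → α} {i k : γ → ℕ}, PolyTime e → PolyTime i →
      PolyTime k → PolyTime (fun c => up (R (e c)) (i c) (k c)) := by
    intro γ _ e i k he hi hk
    refine pt_up ?_ hi hk
    fun_prop
  have h3 : PolyTime (fun a => grN (n a)
      (fun u v => R a u v ∨ (u = Min.min (x a) (y a) ∧ v = Max.max (x a) (y a)))
      (fun v => compN (n a) (R a) (x a) (y a) (w a) v ∨ v = x a ∨ v = y a)) := by
    refine pt_grN hn ?_ ?_
    · fun_prop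
    · fun_prop
  unfold endN
  fun_prop

theorem pt_p0N {n : α → ℕ} {R : α → ℕ → ℕ → Prop} (hn : PolyTime n)
    (hR : PolyTime (fun q : (α × ℕ) × ℕ => R q.1.1 q.1.2 q.2)) :
    PolyTime (fun a => p0N (n a) (R a)) := by
  classical
  have hR' := @PolyTime.unc2 _ _ _ _ _ _ _ _ _ hR
  have h : ∀ {γ : Type} [Enc γ] {e : γ → α} {i j k l : γ → ℕ}, PolyTime e → PolyTime i →
      PolyTime j → PolyTime k → PolyTime l →
      PolyTime (fun c => compN (n (e c)) (R (e c)) (i c) (j c) (k c) (l c)) := by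
    intro γ _ e i j k l he hi hj hk hl
    refine pt_compN ?_ ?_ hi hj hk hl
    · fun_prop
    · fun_prop
  have h2 : ∀ {γ : Type} [Enc γ] {e : γ → α} {i j k : γ → ℕ}, PolyTime e → PolyTime i →
      PolyTime j → PolyTime k → PolyTime (fun c => endN (n (e c)) (R (e c)) (i c) (j c) (k c)) := by
    intro γ _ e i j k he hi hj hk
    refine pt_endN ?_ ?_ hi hj hk
    · fun_prop
    · fun_prop
  unfold p0N
  refine PolyTime.recN (by fun_prop) (by fun_prop) ?_ ?_
  · fun_prop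
  refine ⟨fun a => n a * (2 * 1 + 1), (bdd_nat hn).mul (Bdd.const _), ?_⟩
  intro a i hi
  have key : ∀ i, (recN ((List.range (n a)).map (fun _ => 0)) (fun k S =>
      if endN (n a) (R a) (k / n a / n a) (k / n a % n a) (k % n a) ∧
        (∀ z < n a, compN (n a) (R a) (k / n a / n a) (k / n a % n a) (k % n a) z →
          S.getD z 0 = 0) then S.set (k % n a) 1 else S) i).length = n a ∧
      ∀ t ∈ (recN ((List.range (n a)).map (fun _ => 0)) (fun k S =>
      if endN (n a) (R a) (k / n a / n a) (k / n a % n a) (k % n a) ∧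
        (∀ z < n a, compN (n a) (R a) (k / n a / n a) (k / n a % n a) (k % n a) z →
          S.getD z 0 = 0) then S.set (k % n a) 1 else S) i), t ≤ 1 := by
    intro i
    induction i with
    | zero => simp [recN]
    | succ i ih =>
      obtain ⟨h1, h2⟩ := ih
      rw [recN]
      split_ifs with hc
      · refine ⟨by rw [List.length_set]; exact h1, ?_⟩
        intro t ht
        rcases List.mem_or_eq_of_mem_set ht with h3 | h3
        · exact h2 t h3
        · rw [h3]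
      · exact ⟨h1, h2⟩
  obtain ⟨h1, h2⟩ := key i
  have h4 := esz_list_le (B := 1) (fun t ht => by
    rw [esz_nat]
    exact h2 t ht)
  rw [h1] at h4
  exact h4

/-! ### The pinning number -/

theorem pt_threeSet {n : α → ℕ} {R : α → ℕ → ℕ → Prop} (hn : PolyTime n)
    (hR : PolyTime (fun q : (α × ℕ) × ℕ => R q.1.1 q.1.2 q.2)) :
    PolyTime (fun a => threeSet (n a) (R a)) := by
  have hR' := @PolyTime.unc2 _ _ _ _ _ _ _ _ _ hR
  have h : ∀ {γ : Type} [Enc γ] {e : γ → α} {u v w : γ → ℕ}, PolyTime e → PolyTime u →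
      PolyTime v → PolyTime w →
      PolyTime (fun c => grN (n (e c)) (fun x y => R (e c) x y ∨ (x = u c ∧ y = v c) ∨
        (x = u c ∧ y = w c) ∨ (x = v c ∧ y = w c)) (fun _ => True)) := by
    intro γ _ e u v w he hu hv hw
    refine pt_grN ?_ ?_ ?_
    · fun_prop
    · fun_prop
    · fun_prop
  unfold threeSet
  fun_prop

theorem pt_uN {n : α → ℕ} {R : α → ℕ → ℕ → Prop} {v : α → ℕ} (hn : PolyTime n)
    (hR : PolyTime (fun q : (α × ℕ) × ℕ => R q.1.1 q.1.2 q.2)) (hv : PolyTime v) :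
    PolyTime (fun a => uN (n a) (R a) (v a)) := by
  have h := pt_p0N hn hR
  unfold uN
  fun_prop

theorem pt_pinN {n : α → ℕ} {R : α → ℕ → ℕ → Prop} (hn : PolyTime n)
    (hR : PolyTime (fun q : (α × ℕ) × ℕ => R q.1.1 q.1.2 q.2)) :
    PolyTime (fun a => pinN (n a) (R a)) := by
  have hR' := @PolyTime.unc2 _ _ _ _ _ _ _ _ _ hR
  have h1 := pt_threeSet hn hR
  have h2 : PolyTime (fun q : α × ℕ => uN (n q.1) (R q.1) q.2) :=
    pt_uN (by fun_prop) (by fun_prop) (by fun_prop)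
  have h3 : PolyTime (fun a => cardN (n a) (uN (n a) (R a))) := pt_cardN hn h2
  have h4 : PolyTime (fun a => parN (n a) (R a) (uN (n a) (R a))) := pt_parN hn hR h2
  unfold pinN
  fun_prop

/-! ### The statements with `PolyPred` -/

theorem polyTime_cardN {n : α → ℕ} {χ : α → ℕ → Prop} (hn : PolyTime n)
    (hχ : PolyPred (fun q : α × ℕ => χ q.1 q.2)) : PolyTime (fun a => cardN (n a) (χ a)) :=
  pt_cardN hn hχ.toProp

theorem polyPred_sparseN {n : α → ℕ} {L : α → List ℕ} (hn : PolyTime n) (hL : PolyTime L) :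
    PolyPred (fun a => sparseN (n a) (L a)) := (pt_sparseN hn hL).toPred

theorem polyTime_rkN {n : α → ℕ} {R : α → ℕ → ℕ → Prop} (hn : PolyTime n)
    (hR : PolyPred (fun q : (α × ℕ) × ℕ => R q.1.1 q.1.2 q.2)) :
    PolyTime (fun a => rkN (n a) (R a)) := pt_rkN hn hR.toProp

theorem polyPred_reachP {n : α → ℕ} {R : α → ℕ → ℕ → Prop} {χ : α → ℕ → Prop} {u v : α → ℕ}
    (hn : PolyTime n) (hR : PolyPred (fun q : (α × ℕ) × ℕ => R q.1.1 q.1.2 q.2))
    (hχ : PolyPred (fun q : α × ℕ => χ q.1 q.2)) (hu : PolyTime u) (hv : PolyTime v) :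
    PolyPred (fun a => reachP (n a) (R a) (χ a) (u a) (v a)) :=
  (pt_reachP hn hR.toProp hχ.toProp hu hv).toPred

theorem polyPred_grN {n : α → ℕ} {R : α → ℕ → ℕ → Prop} {χ : α → ℕ → Prop}
    (hn : PolyTime n) (hR : PolyPred (fun q : (α × ℕ) × ℕ => R q.1.1 q.1.2 q.2))
    (hχ : PolyPred (fun q : α × ℕ => χ q.1 q.2)) :
    PolyPred (fun a => grN (n a) (R a) (χ a)) := (pt_grN hn hR.toProp hχ.toProp).toPred

theorem polyTime_parN {n : α → ℕ} {R : α → ℕ → ℕ → Prop} {U : α → ℕ → Prop}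
    (hn : PolyTime n) (hR : PolyPred (fun q : (α × ℕ) × ℕ => R q.1.1 q.1.2 q.2))
    (hU : PolyPred (fun q : α × ℕ => U q.1 q.2)) :
    PolyTime (fun a => parN (n a) (R a) (U a)) := pt_parN hn hR.toProp hU.toProp

theorem polyTime_p0N {n : α → ℕ} {R : α → ℕ → ℕ → Prop} (hn : PolyTime n)
    (hR : PolyPred (fun q : (α × ℕ) × ℕ => R q.1.1 q.1.2 q.2)) :
    PolyTime (fun a => p0N (n a) (R a)) := pt_p0N hn hR.toProp

theorem polyTime_pinN {n : α → ℕ} {R : α → ℕ → ℕ → Prop} (hn : PolyTime n)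
    (hR : PolyPred (fun q : (α × ℕ) × ℕ => R q.1.1 q.1.2 q.2)) :
    PolyTime (fun a => pinN (n a) (R a)) := pt_pinN hn hR.toProp

end Pool.Agent.Helper36.Alg
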