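import Pool.Agent.Helper68.AL.PolyRank

/-!
# AL-3, AL-4: the potential and the local search are computable in polynomial time
-/

set_option autoImplicit false

namespace Pool.Agent.Helper36.Alg

open Finset Pool.Agent.Helper36.PT

variable {α : Type} [Enc α]

theorem polyTime_tent {p m : α → ℕ} {A B : α → ℕ → ℕ → ℕ} {x : α → List ℕ} {u v : α → ℕ}
    (hp : PolyTime p) (hm : PolyTime m)
    (hA : PolyTime (fun q : (α × ℕ) × ℕ => A q.1.1 q.1.2 q.2))
    (hB : PolyTime (fun q : (α × ℕ) × ℕ => B q.1.1 q.1.2 q.2)) (hx : PolyTime x)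
    (hu : PolyTime u) (hv : PolyTime v) :
    PolyTime (fun a => tent (p a) (m a) (A a) (B a) (x a) (u a) (v a)) := by
  have h := @PolyTime.unc2 _ _ _ _ _ _ _ _ _ hA
  have h' := @PolyTime.unc2 _ _ _ _ _ _ _ _ _ hB
  unfold tent
  fun_prop

theorem polyTime_trk {p D m : α → ℕ} {A B : α → ℕ → ℕ → ℕ} {x : α → List ℕ}
    (hp : PolyTime p) (hD : PolyTime D) (hm : PolyTime m)
    (hA : PolyTime (fun q : (α × ℕ) × ℕ => A q.1.1 q.1.2 q.2))
    (hB : PolyTime (fun q : (α × ℕ) × ℕ => B q.1.1 q.1.2 q.2)) (hx : PolyTime x) :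
    PolyTime (fun a => trk (p a) (D a) (m a) (A a) (B a) (x a)) := by
  have h := @PolyTime.unc2 _ _ _ _ _ _ _ _ _ hA
  have h' := @PolyTime.unc2 _ _ _ _ _ _ _ _ _ hB
  unfold trk
  refine polyTime_rankF hp hD hD ?_
  unfold tent
  fun_prop

theorem polyTime_isOne {p D m : α → ℕ} {A B : α → ℕ → ℕ → ℕ} {x : α → List ℕ} {i : α → ℕ}
    (hp : PolyTime p) (hD : PolyTime D) (hm : PolyTime m)
    (hA : PolyTime (fun q : (α × ℕ) × ℕ => A q.1.1 q.1.2 q.2))
    (hB : PolyTime (fun q : (α × ℕ) × ℕ => B q.1.1 q.1.2 q.2)) (hx : PolyTime x)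
    (hi : PolyTime i) :
    PolyTime (fun a => isOne (p a) (D a) (m a) (A a) (B a) (x a) (i a)) := by
  have h := @PolyTime.unc2 _ _ _ _ _ _ _ _ _ hA
  have h' := @PolyTime.unc2 _ _ _ _ _ _ _ _ _ hB
  have ht := polyTime_trk hp hD hm hA hB hx
  unfold isOne
  refine PolyTime.pEq (polyTime_rankF hp hD (hD.add (PolyTime.const 2)) ?_)
    (ht.add (PolyTime.const 1))
  unfold ent1 tent
  fun_prop

theorem polyTime_isAdj {p D m : α → ℕ} {A B : α → ℕ → ℕ → ℕ} {x : α → List ℕ} {i k : α → ℕ}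
    (hp : PolyTime p) (hD : PolyTime D) (hm : PolyTime m)
    (hA : PolyTime (fun q : (α × ℕ) × ℕ => A q.1.1 q.1.2 q.2))
    (hB : PolyTime (fun q : (α × ℕ) × ℕ => B q.1.1 q.1.2 q.2)) (hx : PolyTime x)
    (hi : PolyTime i) (hk : PolyTime k) :
    PolyTime (fun a => isAdj (p a) (D a) (m a) (A a) (B a) (x a) (i a) (k a)) := by
  have h := @PolyTime.unc2 _ _ _ _ _ _ _ _ _ hA
  have h' := @PolyTime.unc2 _ _ _ _ _ _ _ _ _ hB
  have ht := polyTime_trk hp hD hm hA hB hx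
  unfold isAdj
  refine PolyTime.pEq (polyTime_rankF hp (hD.add (PolyTime.const 2))
    (hD.add (PolyTime.const 2)) ?_) (ht.add (PolyTime.const 3))
  unfold ent2 tent
  fun_prop

theorem polyTime_potN {p D m : α → ℕ} {A B : α → ℕ → ℕ → ℕ} {x : α → List ℕ}
    (hp : PolyTime p) (hD : PolyTime D) (hm : PolyTime m)
    (hA : PolyTime (fun q : (α × ℕ) × ℕ => A q.1.1 q.1.2 q.2))
    (hB : PolyTime (fun q : (α × ℕ) × ℕ => B q.1.1 q.1.2 q.2)) (hx : PolyTime x) :
    PolyTime (fun a => potN (p a) (D a) (m a) (A a) (B a) (x a)) := by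
  have h := @PolyTime.unc2 _ _ _ _ _ _ _ _ _ hA
  have h' := @PolyTime.unc2 _ _ _ _ _ _ _ _ _ hB
  have ht := polyTime_trk hp hD hm hA hB hx
  have h1 : ∀ {γ : Type} [Enc γ] {e : γ → α} {i : γ → ℕ}, PolyTime e → PolyTime i →
      PolyTime (fun c => isOne (p (e c)) (D (e c)) (m (e c)) (A (e c)) (B (e c)) (x (e c))
        (i c)) := by
    intro γ _ e i he hi
    refine polyTime_isOne (by fun_prop) (by fun_prop) (by fun_prop) ?_ ?_ (by fun_prop) hi
    · fun_prop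
    · fun_prop
  have h2 : ∀ {γ : Type} [Enc γ] {e : γ → α} {i k : γ → ℕ}, PolyTime e → PolyTime i →
      PolyTime k → PolyTime (fun c => isAdj (p (e c)) (D (e c)) (m (e c)) (A (e c)) (B (e c))
        (x (e c)) (i c) (k c)) := by
    intro γ _ e i k he hi hk
    refine polyTime_isAdj (by fun_prop) (by fun_prop) (by fun_prop) ?_ ?_ (by fun_prop) hi hk
    · fun_prop
    · fun_prop
  unfold potN
  fun_prop

end Pool.Agent.Helper36.Alg
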