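import Pool.Agent.Helper68.AL.PolyPot

/-!
# AL-4: the local search is computable in polynomial time
-/

set_option autoImplicit false

namespace Pool.Agent.Helper36.Alg

open Finset Pool.Agent.Helper36.PT

variable {α : Type} [Enc α]

@[fun_prop]
theorem polyTime_upd1 {p c : α → ℕ} {x : α → List ℕ} (hp : PolyTime p) (hc : PolyTime c)
    (hx : PolyTime x) : PolyTime (fun a => upd1 (p a) (c a) (x a)) := by
  unfold upd1
  fun_prop

@[fun_prop]
theorem polyTime_cand {p m c : α → ℕ} {x : α → List ℕ} (hp : PolyTime p) (hm : PolyTime m)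
    (hc : PolyTime c) (hx : PolyTime x) :
    PolyTime (fun a => cand (p a) (m a) (c a) (x a)) := by
  unfold cand
  fun_prop

theorem polyTime_lsStep {p D m : α → ℕ} {A B : α → ℕ → ℕ → ℕ} {x : α → List ℕ}
    (hp : PolyTime p) (hD : PolyTime D) (hm : PolyTime m)
    (hA : PolyTime (fun q : (α × ℕ) × ℕ => A q.1.1 q.1.2 q.2))
    (hB : PolyTime (fun q : (α × ℕ) × ℕ => B q.1.1 q.1.2 q.2)) (hx : PolyTime x) :
    PolyTime (fun a => lsStep (p a) (D a) (m a) (A a) (B a) (x a)) := by
  have h := @PolyTime.unc2 _ _ _ _ _ _ _ _ _ hA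
  have h' := @PolyTime.unc2 _ _ _ _ _ _ _ _ _ hB
  have h1 : ∀ {γ : Type} [Enc γ] {e : γ → α} {y : γ → List ℕ}, PolyTime e → PolyTime y →
      PolyTime (fun c => potN (p (e c)) (D (e c)) (m (e c)) (A (e c)) (B (e c)) (y c)) := by
    intro γ _ e y he hy
    refine polyTime_potN (by fun_prop) (by fun_prop) (by fun_prop) ?_ ?_ hy
    · fun_prop
    · fun_prop
  have h2 : PolyTime (fun a => best (p a) (D a) (m a) (A a) (B a) (x a)) := by
    unfold best
    fun_prop
  unfold lsStep
  fun_prop

theorem ps68_length_upd1 (p c : ℕ) (x : List ℕ) : (upd1 p c x).length = x.length := by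
  unfold upd1
  exact List.length_set

theorem ps68_length_cand (p m c : ℕ) (x : List ℕ) : (cand p m c x).length = x.length := by
  unfold cand
  rw [ps68_length_upd1, ps68_length_upd1, ps68_length_upd1]

theorem upd1_le {p c : ℕ} {x : List ℕ} (hp : 0 < p) (h : ∀ t ∈ x, t ≤ p) :
    ∀ t ∈ upd1 p c x, t ≤ p := by
  intro t ht
  unfold upd1 at ht
  rcases List.mem_or_eq_of_mem_set ht with h1 | h1
  · exact h t h1
  · rw [h1]
    exact (Nat.mod_lt _ hp).le

theorem cand_le {p m c : ℕ} {x : List ℕ} (hp : 0 < p) (h : ∀ t ∈ x, t ≤ p) :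
    ∀ t ∈ cand p m c x, t ≤ p := by
  unfold cand
  exact upd1_le hp (upd1_le hp (upd1_le hp h))

theorem lsStep_inv {p D m : ℕ} {A B : ℕ → ℕ → ℕ} {x : List ℕ}
    (h : x.length = m ∧ ∀ t ∈ x, t ≤ p) :
    (lsStep p D m A B x).length = m ∧ ∀ t ∈ lsStep p D m A B x, t ≤ p := by
  unfold lsStep
  split_ifs with hc
  · refine ⟨by rw [ps68_length_cand]; exact h.1, ?_⟩
    have hp : 0 < p := by
      rcases Nat.eq_zero_or_pos p with hp | hp
      · rw [hp] at hc
        simp at hc
      · exact hp
    exact cand_le hp h.2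
  · exact h

theorem polyTime_solve {p D m : α → ℕ} {A B : α → ℕ → ℕ → ℕ}
    (hp : PolyTime p) (hD : PolyTime D) (hm : PolyTime m)
    (hA : PolyTime (fun q : (α × ℕ) × ℕ => A q.1.1 q.1.2 q.2))
    (hB : PolyTime (fun q : (α × ℕ) × ℕ => B q.1.1 q.1.2 q.2)) :
    PolyTime (fun a => solve (p a) (D a) (m a) (A a) (B a)) := by
  have h := @PolyTime.unc2 _ _ _ _ _ _ _ _ _ hA
  have h' := @PolyTime.unc2 _ _ _ _ _ _ _ _ _ hB
  unfold solve
  refine polyTime_trk hp hD hm hA hB ?_
  unfold lsRun potMax
  refine PolyTime.recN (by fun_prop) ?_ ?_ ?_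
  · refine PolyTime.congr (f := fun a => (List.range (m a)).map (fun _ => 0)) (by fun_prop) ?_
    intro a
    rw [List.map_const', List.length_range]
  · refine polyTime_lsStep (by fun_prop) (by fun_prop) (by fun_prop) ?_ ?_ (by fun_prop)
    · fun_prop
    · fun_prop
  · refine ⟨fun a => m a * (2 * (p a) + 1), ?_, ?_⟩
    · have h2 := bdd_nat hm
      have h3 := bdd_nat hp
      exact h2.mul (((Bdd.const 2).mul h3).add (Bdd.const 1))
    · intro a i hi
      have key : ∀ i, (recN (List.replicate (m a) 0) (fun _ x => lsStep (p a) (D a) (m a) (A a)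
          (B a) x) i).length = m a ∧ ∀ t ∈ recN (List.replicate (m a) 0)
          (fun _ x => lsStep (p a) (D a) (m a) (A a) (B a) x) i, t ≤ p a := by
        intro i
        induction i with
        | zero =>
          refine ⟨by simp [recN], ?_⟩
          intro t ht
          simp only [recN] at ht
          rw [List.eq_of_mem_replicate ht]
          exact Nat.zero_le _
        | succ i ih => exact lsStep_inv ih
      obtain ⟨h1, h2⟩ := key i
      have h4 := esz_list_le (B := p a) (fun t ht => by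
        rw [esz_nat]
        exact h2 t ht)
      rw [h1] at h4
      exact h4

end Pool.Agent.Helper36.Alg
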